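import Pool.Agent.Results.MP_181555_al.CubesAllRanks
import Pool.Agent.Results.MP_181555_al.CubesKernelOrder

set_option autoImplicit false

/-!
# The groups `Q(n,3)` are finite for `n ≥ 5`
-/

namespace Pool.Agent.Results.MP_89352f_al.ExponentThreeFinite

open Pool.Agent.Results.MP_181555_al

/-- `l` is the Nielsen move `a i ↦ a j * a i` (with `i ≠ j`), fixing the other generators. -/
def IsNielsenMove {n : ℕ} (i j : Fin n) (l : MulAut (FreeGroup (Fin n))) : Prop :=
  i ≠ j ∧ l (FreeGroup.of i) = FreeGroup.of j * FreeGroup.of i ∧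
    ∀ k, k ≠ i → l (FreeGroup.of k) = FreeGroup.of k

/-- The quotient `Q(n,m)` of `Aut (F_n)` by the normal closure of the `m`-th power of the Nielsen
move `l`. -/
abbrev Q {n : ℕ} (m : ℕ) (l : MulAut (FreeGroup (Fin n))) : Type :=
  MulAut (FreeGroup (Fin n)) ⧸ Subgroup.normalClosure {l ^ m}

/-- The inversion of the generator `a i`. -/
def flip {n : ℕ} (i : Fin n) : MulAut (FreeGroup (Fin n)) :=
  MonoidHom.toMulEquiv
    (FreeGroup.lift fun k => if k = i then (FreeGroup.of i)⁻¹ else FreeGroup.of k)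
    (FreeGroup.lift fun k => if k = i then (FreeGroup.of i)⁻¹ else FreeGroup.of k)
    (by
      ext1 k
      by_cases h : k = i
      · subst h; simp
      · simp [h])
    (by
      ext1 k
      by_cases h : k = i
      · subst h; simp
      · simp [h])

lemma flip_self {n : ℕ} (i : Fin n) : flip i (FreeGroup.of i) = (FreeGroup.of i)⁻¹ := by
  change FreeGroup.lift (fun k => if k = i then (FreeGroup.of i)⁻¹ else FreeGroup.of k)
    (FreeGroup.of i) = _
  simp

lemma flip_of {n : ℕ} {i k : Fin n} (h : k ≠ i) : flip i (FreeGroup.of k) = FreeGroup.of k := by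
  change FreeGroup.lift (fun k => if k = i then (FreeGroup.of i)⁻¹ else FreeGroup.of k)
    (FreeGroup.of k) = _
  simp [h]

lemma flip_flip {n : ℕ} (i : Fin n) : flip i * flip i = 1 := by
  apply MulEquiv.toMonoidHom_injective
  ext1 k
  change flip i (flip i (FreeGroup.of k)) = FreeGroup.of k
  by_cases h : k = i
  · subst h
    rw [flip_self, map_inv, flip_self, inv_inv]
  · rw [flip_of h, flip_of h]

/-- Conjugation by the inversion turns the inverse of a Nielsen move into a transvection. -/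
lemma conj_transv {n : ℕ} {i j : Fin n} {l : MulAut (FreeGroup (Fin n))}
    (hl : IsNielsenMove i j l) :
    CubesAllRanks.IsTransvection (flip i * l⁻¹ * (flip i)⁻¹) := by
  obtain ⟨hij, h1, h2⟩ := hl
  have hf : (flip i)⁻¹ = flip i := inv_eq_of_mul_eq_one_left (flip_flip i)
  have hinv : ∀ k, k ≠ i → l⁻¹ (FreeGroup.of k) = FreeGroup.of k := by
    intro k hk
    have h3 := congrArg (fun x => l⁻¹ x) (h2 k hk)
    simp only [MulAut.inv_apply_self] at h3
    exact h3.symm
  have hi : l⁻¹ (FreeGroup.of i) = (FreeGroup.of j)⁻¹ * FreeGroup.of i := by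
    have h3 := congrArg (fun x => l⁻¹ x) h1
    simp only [MulAut.inv_apply_self, map_mul] at h3
    rw [hinv j hij.symm] at h3
    exact eq_inv_mul_of_mul_eq h3.symm
  refine ⟨i, j, hij, ?_, fun k hk => ?_⟩
  · rw [hf, MulAut.mul_apply, MulAut.mul_apply, flip_self, map_inv, hi, map_inv, map_mul, map_inv,
      flip_self, flip_of hij.symm]
    group
  · rw [hf, MulAut.mul_apply, MulAut.mul_apply, flip_of hk, hinv k hk, flip_of hk]

/-- The normal closure of `l ^ 3` is the normal closure of the cubes of the transvections. -/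
lemma closure_eq {n : ℕ} (h5 : 5 ≤ n) {i j : Fin n} {l : MulAut (FreeGroup (Fin n))}
    (hl : IsNielsenMove i j l) :
    Subgroup.normalClosure {l ^ 3} = CubesKernelOrder.Cubes n := by
  have ht := conj_transv hl
  have hN : (Subgroup.normalClosure {l ^ 3}).Normal := Subgroup.normalClosure_normal
  have hC : (CubesKernelOrder.Cubes n).Normal := Subgroup.normalClosure_normal
  have e : (flip i * l⁻¹ * (flip i)⁻¹) * (flip i * l⁻¹ * (flip i)⁻¹) *
      (flip i * l⁻¹ * (flip i)⁻¹) = flip i * (l ^ 3)⁻¹ * (flip i)⁻¹ := by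
    group
  apply le_antisymm
  · apply Subgroup.normalClosure_le_normal
    rw [Set.singleton_subset_iff]
    have h1 : flip i * (l ^ 3)⁻¹ * (flip i)⁻¹ ∈ CubesKernelOrder.Cubes n := by
      rw [← e]
      exact Subgroup.subset_normalClosure ⟨_, ht, rfl⟩
    have h2 := hC.conj_mem _ h1 (flip i)⁻¹
    have h3 : (flip i)⁻¹ * (flip i * (l ^ 3)⁻¹ * (flip i)⁻¹) * ((flip i)⁻¹)⁻¹ = (l ^ 3)⁻¹ := by
      group
    rw [h3] at h2
    exact (Subgroup.inv_mem_iff _).mp h2
  · rw [CubesKernelOrder.Cubes_eq h5]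
    refine CubesAllRanks.Nt_le hN ⟨_, ht, ?_⟩
    rw [e]
    exact hN.conj_mem _ (Subgroup.inv_mem _ (Subgroup.subset_normalClosure rfl)) _

/-- Let `n ≥ 5`. The group `Q(n,3)` is finite, and its order is `3 ^ (n choose 3)` times the number
of the automorphisms of `F_n / K n` that are induced by automorphisms of `F_n`. -/
theorem result : ∀ n : ℕ, 5 ≤ n → ∀ (i j : Fin n) (l : MulAut (FreeGroup (Fin n))),
    IsNielsenMove i j l →
    Finite (Q 3 l) ∧ Nat.card (Q 3 l) = 3 ^ n.choose 3 * (CubesKernelOrder.Triv n).index := by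
  intro n h5 i j l hl
  have hN : (Subgroup.normalClosure {l ^ 3}).Normal := Subgroup.normalClosure_normal
  have ht := conj_transv hl
  have e : (flip i * l⁻¹ * (flip i)⁻¹) * (flip i * l⁻¹ * (flip i)⁻¹) *
      (flip i * l⁻¹ * (flip i)⁻¹) = flip i * (l ^ 3)⁻¹ * (flip i)⁻¹ := by
    group
  have hfin : (Subgroup.normalClosure {l ^ 3}).FiniteIndex :=
    ((CubesAllRanks.result n h5).2.2 _ hN ⟨_, ht, by
      rw [e]
      exact hN.conj_mem _ (Subgroup.inv_mem _ (Subgroup.subset_normalClosure rfl)) _⟩).1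
  refine ⟨Subgroup.finite_quotient_of_finiteIndex, ?_⟩
  obtain ⟨h1, h2, -⟩ := CubesKernelOrder.result n h5
  change (Subgroup.normalClosure {l ^ 3}).index = _
  rw [closure_eq h5 hl, ← h2, Subgroup.relIndex_mul_index h1]

end Pool.Agent.Results.MP_89352f_al.ExponentThreeFinite
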